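import Mathlib
import Pool.Agent.TH444.ML.Done
import Pool.Agent.TH59.WX.PG

/-!
# Small core-free subgroups of extensions by products of wreath products

`X` is a finite group with a normal subgroup `N`, and `U` a core-free subgroup of `N`; then `U` is a
core-free subgroup of `X`.
-/

set_option autoImplicit false

open Pool.Agent.H391R2 (Wr)

namespace Pool.Agent.W5h93.MX

section

variable {X : Type} [Group X]

theorem core_map (N : Subgroup X) [N.Normal] (U : Subgroup N) (hU : U.normalCore = ⊥) :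
    (U.map N.subtype).normalCore = ⊥ := by
  rw [eq_bot_iff]
  intro x hx
  have hxN : x ∈ N := by
    obtain ⟨y, -, rfl⟩ := Subgroup.normalCore_le _ hx
    exact y.2
  have h1 : (⟨x, hxN⟩ : N) ∈ U.normalCore := by
    intro g
    obtain ⟨y, hy, hy'⟩ := hx (g : X)
    have : y = g * ⟨x, hxN⟩ * g⁻¹ := Subtype.ext hy'
    rwa [← this]
  rw [hU, Subgroup.mem_bot] at h1
  rw [Subgroup.mem_bot]
  exact congrArg Subtype.val h1

/-- core-free subgroups under isomorphisms -/
theorem core_equiv {Y : Type} [Group Y] (e : X ≃* Y) (U : Subgroup Y) (hU : U.normalCore = ⊥) :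
    (U.comap e.toMonoidHom).normalCore = ⊥ := by
  rw [eq_bot_iff]
  intro x hx
  have h1 : e x ∈ U.normalCore := by
    intro g
    have h := hx (e.symm g)
    rw [Subgroup.mem_comap] at h
    simpa using h
  rw [hU, Subgroup.mem_bot] at h1
  rw [Subgroup.mem_bot]
  exact (map_eq_one_iff e e.injective).1 h1

theorem core_pi {ι : Type} {H : ι → Type} [∀ i, Group (H i)] [DecidableEq ι]
    (U : ∀ i, Subgroup (H i)) (hU : ∀ i, (U i).normalCore = ⊥) :
    (Subgroup.pi Set.univ U).normalCore = ⊥ := by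
  rw [eq_bot_iff]
  intro x hx
  rw [Subgroup.mem_bot]
  funext i
  have h1 : x i ∈ (U i).normalCore := by
    intro g
    have h := hx (Pi.mulSingle i g)
    have h2 := (Subgroup.mem_pi _).1 h i (Set.mem_univ i)
    simpa using h2
  rw [hU i, Subgroup.mem_bot] at h1
  exact h1

end

theorem index_pi' {ι : Type} [Fintype ι] {H : ι → Type} [∀ i, Group (H i)]
    (U : ∀ i, Subgroup (H i)) : (Subgroup.pi Set.univ U).index = ∏ i, (U i).index := by
  simp_rw [Subgroup.index, ← Nat.card_pi]
  refine Nat.card_congr ((Quotient.congrRight (fun x y ↦ ?_)).trans (Setoid.piQuotientEquiv _).symm)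
  rw [QuotientGroup.leftRel_apply, Setoid.piSetoid_apply]
  simp only [QuotientGroup.leftRel_apply, Subgroup.mem_pi, Set.mem_univ, true_implies]
  rfl

section bound

theorem fact_lower (n : ℕ) (hn : 20 ≤ n) : 16 * n ^ 2 * (n - 3).factorial ≤ n.factorial := by
  obtain ⟨m, rfl⟩ := Nat.exists_eq_add_of_le hn
  have e1 : 20 + m - 3 = 17 + m := by omega
  have e2 : (20 + m).factorial = (20 + m) * ((19 + m) * ((18 + m) * (17 + m).factorial)) := by
    rw [show 20 + m = (19 + m) + 1 by ring, Nat.factorial_succ,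
      show 19 + m = (18 + m) + 1 by ring, Nat.factorial_succ,
      show 18 + m = (17 + m) + 1 by ring, Nat.factorial_succ]
  rw [e1, e2]
  have h : 16 * (20 + m) ^ 2 ≤ (20 + m) * ((19 + m) * (18 + m)) := by nlinarith
  calc 16 * (20 + m) ^ 2 * (17 + m).factorial
      ≤ ((20 + m) * ((19 + m) * (18 + m))) * (17 + m).factorial := Nat.mul_le_mul_right _ h
    _ = _ := by ring

theorem sq_le {a n : ℕ} (ha : 1 ≤ a) (hn : 20 ≤ n) :
    16 * (a * n) ^ 2 * (n - 3).factorial ≤ a ^ n * n.factorial := by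
  have h1 := fact_lower n hn
  have h2 : a ^ 2 ≤ a ^ n := Nat.pow_le_pow_right ha (by omega)
  calc 16 * (a * n) ^ 2 * (n - 3).factorial = a ^ 2 * (16 * n ^ 2 * (n - 3).factorial) := by ring
    _ ≤ a ^ n * n.factorial := Nat.mul_le_mul h2 h1

theorem sq_le' {a n : ℕ} (ha : 1 ≤ a) (hn : 20 ≤ n) : (a * n) ^ 2 ≤ a ^ n * n.factorial := by
  refine le_trans ?_ (sq_le ha hn)
  have : 1 ≤ (n - 3).factorial := Nat.factorial_pos _
  nlinarith [Nat.zero_le ((a * n) ^ 2)]

/-- the inequality -/
theorem prod_bound {ι : Type} [Fintype ι] [DecidableEq ι] (a n : ι → ℕ) (ha : ∀ i, 1 ≤ a i)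
    (hn : ∀ i, 20 ≤ n i) (q : ℕ) (hq1 : 1 ≤ q) (j : ι) (hq : q ≤ (n j - 3).factorial) :
    8 * (q * ∏ i, (a i * n i)) * (q * (∏ i, (a i * n i)) + 1) ≤
      q * ∏ i, (a i ^ n i * (n i).factorial) := by
  set M := ∏ i, (a i * n i) with hM
  have hM1 : 1 ≤ M := Nat.one_le_iff_ne_zero.2 (Finset.prod_ne_zero_iff.2 fun i _ =>
    Nat.mul_ne_zero (by have := ha i; omega) (by have := hn i; omega))
  have hqM : 1 ≤ q * M := Nat.one_le_iff_ne_zero.2 (Nat.mul_ne_zero (by omega) (by omega))
  have h1 : 8 * (q * M) * (q * M + 1) ≤ q * (16 * q * M ^ 2) := by nlinarith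
  refine h1.trans (Nat.mul_le_mul_left _ ?_)
  rw [hM, ← Finset.prod_pow, ← Finset.mul_prod_erase _ _ (Finset.mem_univ j),
    ← Finset.mul_prod_erase _ _ (Finset.mem_univ j), ← mul_assoc]
  refine Nat.mul_le_mul ?_ (Finset.prod_le_prod' fun i _ => sq_le' (ha i) (hn i))
  calc 16 * q * (a j * n j) ^ 2 = 16 * (a j * n j) ^ 2 * q := by ring
    _ ≤ 16 * (a j * n j) ^ 2 * (n j - 3).factorial := Nat.mul_le_mul_left _ hq
    _ ≤ _ := sq_le (ha j) (hn j)

end bound

section wreath

variable {ι : Type} [Finite ι] (G : ι → Type) [∀ i, Group (G i)] [∀ i, Finite (G i)] (n : ι → ℕ)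

/-- A group `X` with a normal subgroup isomorphic to a nontrivial product of groups
`G_i ≀ S_(n_i)`. -/
theorem small (hn : ∀ i, 20 ≤ n i) (X : Type) [Group X] [Finite X] (N : Subgroup X) [N.Normal]
    (e : N ≃* (∀ i, Wr (G i) (n i))) (j : ι) (hq : N.index ≤ (n j - 3).factorial) :
    ∃ U : Subgroup X, U.normalCore = ⊥ ∧ 8 * U.index * (U.index + 1) ≤ Nat.card X := by
  classical
  have : Fintype ι := Fintype.ofFinite ι
  choose V hV1 hV2 using fun i => Pool.Agent.TH444.ML.wr_core (G i) (n i) (by have := hn i; omega)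
  let W : Subgroup (∀ i, Wr (G i) (n i)) := Subgroup.pi Set.univ V
  let U₀ : Subgroup N := W.comap e.toMonoidHom
  have hW : W.index = ∏ i, (Nat.card (G i) * n i) := by
    rw [index_pi']
    exact Finset.prod_congr rfl fun i _ => hV2 i
  have hU₀ : U₀.index = ∏ i, (Nat.card (G i) * n i) := by
    rw [← hW]
    exact Subgroup.index_comap_of_surjective W e.surjective
  refine ⟨U₀.map N.subtype, core_map N U₀ (core_equiv e W (core_pi V hV1)), ?_⟩
  rw [Subgroup.index_map_subtype, hU₀]
  have hcard : Nat.card X = N.index * ∏ i, (Nat.card (G i) ^ n i * (n i).factorial) := by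
    rw [← Subgroup.index_mul_card N, Nat.card_congr e.toEquiv, Nat.card_pi]
    congr 1
    exact Finset.prod_congr rfl fun i _ => Pool.Agent.TH444.ML.wr_card (G i) (n i)
  have hq1 : 1 ≤ N.index := Nat.one_le_iff_ne_zero.2 Subgroup.index_ne_zero_of_finite
  rw [hcard, mul_comm _ N.index]
  exact prod_bound (fun i => Nat.card (G i)) n (fun i => Nat.card_pos) hn N.index hq1 j hq

end wreath

end Pool.Agent.W5h93.MX
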