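import Mathlib
import Pool.Agent.W5h93.MX.Core

/-!
# Groups over a Galois group in the tower class
-/

set_option autoImplicit false
set_option linter.unusedSectionVars false

open Pool.Agent.TH444.TW (Cls)
open Pool.Agent.H391R2 (Wr)

namespace Pool.Agent.W5h93.MX

open Pool.Agent.TH444.ML (Gal gal_nonempty fd_of_finite_aut)

/-- `Γ` is a Galois group over `K`. -/
def IsG (K Γ : Type) [Field K] [Group Γ] : Prop :=
  ∃ (L : Type) (_ : Field L) (_ : Algebra K L), IsGalois K L ∧ Nonempty (Γ ≃* (L ≃ₐ[K] L))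

/-- all homomorphisms in the class are surjective -/
theorem cls_surj (K : Type) [Field K] {Γ X : Type} [Group Γ] [Group X] (p : X →* Γ)
    (hp : Cls K p) : Function.Surjective p := by
  induction hp with
  | abelian p s hs _ _ => exact fun w => ⟨s w, hs w⟩
  | inner p A _ hp => 
    obtain ⟨k, ψ, ι, s, -, -, hs, -⟩ := hp
    exact fun w => ⟨s w, hs w⟩
  | wreath p G n hn hp => 
    obtain ⟨k, ψ, ι, s, -, -, hs, -⟩ := hp
    exact fun w => ⟨s w, hs w⟩
  | kernel p hs _ _ _ _ _ _ _ => exact hs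
  | comp p q _ _ hp hq => exact hp.comp hq
  | quot p q hq _ h =>
    intro w
    obtain ⟨x, hx⟩ := h w
    exact ⟨q x, hx⟩

section

variable (K : Type) [Field K] [NumberField K]

/-- isomorphisms are in the class -/
theorem cls_equiv {Γ Δ : Type} [Group Γ] [Group Δ] (e : Γ ≃* Δ) : Cls K e.toMonoidHom := by
  refine Cls.abelian _ e.symm.toMonoidHom (fun w => e.apply_symm_apply w) ?_ ?_
  · have : (e.toMonoidHom).ker = ⊥ := (MonoidHom.ker_eq_bot_iff _).2 e.injective
    rw [this]
    infer_instance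
  · intro x y hx hy
    have hx' : x = 1 := (map_eq_one_iff e e.injective).1 hx
    have hy' : y = 1 := (map_eq_one_iff e e.injective).1 hy
    rw [hx', hy']

/-- groups over Galois groups -/
theorem gal_of_cls {Γ X : Type} [Group Γ] [Group X] [Finite X] (p : X →* Γ) (hp : Cls K p)
    (hΓ : IsG K Γ) : (Gal K (AlgebraicClosure K) X).Nonempty := by
  obtain ⟨L, _, _, _, ⟨e⟩⟩ := hΓ
  have hfΓ : Finite Γ := Finite.of_surjective p (cls_surj K p hp)
  have hfin : Finite (L ≃ₐ[K] L) := Finite.of_equiv Γ e.toEquiv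
  have hfd : FiniteDimensional K L := fd_of_finite_aut K L
  exact gal_nonempty K (AlgebraicClosure K) L X (e.toMonoidHom.comp p)
    (Cls.comp _ _ (cls_equiv K e) hp)

/-- quotients of Galois groups -/
theorem isG_of_gal {Γ X : Type} [Group Γ] [Group X] [Finite X] (p : X →* Γ)
    (hp : Function.Surjective p) {M : IntermediateField K (AlgebraicClosure K)}
    (hM : M ∈ Gal K (AlgebraicClosure K) X) : IsG K Γ := by
  obtain ⟨h1, h2, ⟨f⟩⟩ := hM
  let q : (M ≃ₐ[K] M) →* Γ := p.comp f.toMonoidHom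
  have hq : Function.Surjective q := hp.comp f.surjective
  have hnorm : q.ker.Normal := inferInstance
  let F := IntermediateField.fixedField (F := K) (E := M) q.ker
  have hgal : IsGalois K F := by
    have := IsGalois.of_fixedField_normal_subgroup (K := K) (L := M) q.ker
    exact this
  refine ⟨F, inferInstance, inferInstance, hgal, ⟨?_⟩⟩
  exact ((QuotientGroup.quotientKerEquivOfSurjective q hq).symm.trans
    (IsGalois.normalAutEquivQuotient (K := K) (L := M) q.ker))

/-- extensions with group `C₂ ≀ X` contain extensions with group `X` -/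
theorem gal_of_cnt {X : Type} [Group X] [Finite X] {d : ℕ} {G : Subgroup (Equiv.Perm (Fin d))}
    (hG : Pool.Agent.TH444.ML.IsC2Wr X G) {B : ℝ} {L : IntermediateField K (AlgebraicClosure K)}
    (hL : L ∈ Pool.Agent.TH444.ML.Cnt K G B) :
    ∃ M : IntermediateField K (AlgebraicClosure K), M ∈ Gal K (AlgebraicClosure K) X := by
  rw [Pool.Agent.TH444.ML.cnt_eq K hG] at hL
  obtain ⟨M, hM, -⟩ := (Pool.Agent.TH365.J3099.wrIff K (AlgebraicClosure K) X L).1 ⟨hL.1, hL.2.1⟩
  exact ⟨M, hM⟩

end

/-- the class contains the quotients by products of wreath products -/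
theorem cls_kernel (K : Type) [Field K] (ι : Type) [Finite ι] (A : ι → Type) [∀ i, Group (A i)]
    [∀ i, Finite (A i)] [∀ i, Nontrivial (A i)] (n : ι → ℕ)
    (hZ : ∀ i, Subgroup.center (A i) = ⊥)
    (hT : ∀ i, ∃ T : Subgroup (MulAut (A i)), IsCompl T (MulAut.conj : A i →* MulAut (A i)).range)
    (hn : ∀ i, ((3 * Nat.card (A i) + 2).factorial) ^ 3 ≤ n i) (X : Type) [Group X]
    (M : Subgroup X) [M.Normal] (e : M ≃* (∀ i, Wr (A i) (n i))) :
    Cls K (QuotientGroup.mk' M) :=
  Cls.kernel _ (QuotientGroup.mk'_surjective M) ι A hZ hT n hn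
    ⟨(MulEquiv.subgroupCongr (QuotientGroup.ker_mk' M)).trans e⟩

theorem twenty_le (a n : ℕ) (ha : 1 ≤ a) (h : ((3 * a + 2).factorial) ^ 3 ≤ n) : 20 ≤ n := by
  have h1 : (5 : ℕ).factorial ≤ (3 * a + 2).factorial := Nat.factorial_le (by omega)
  have h2 : (5 : ℕ).factorial = 120 := rfl
  have h3 : (3 * a + 2).factorial ≤ (3 * a + 2).factorial ^ 3 := Nat.le_self_pow (by omega) _
  omega

end Pool.Agent.W5h93.MX
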